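import Pool.Agent.H6.NE.Stm3

/-!
# NE, part INV (invariant functionals are characters), MP_895f30.
-/

set_option autoImplicit false

open Finset
open scoped commutatorElement

namespace H41.NE

open H6.NE

/-- a nilpotent group with cyclic abelianisation is commutative -/
theorem comm_of_zpowers_sup {K : Type} [Group K] [hK : Group.IsNilpotent K] (g : K)
    (h : Subgroup.zpowers g ⊔ commutator K = ⊤) : ∀ a b : K, a * b = b * a := by
  have key : ∀ n : ℕ, commutator K ≤ (⊤ : Subgroup K).lowerCentralSeries (n + 1) := by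
    intro n
    induction n with
    | zero =>
      rw [zero_add, Subgroup.top_lowerCentralSeries_one]
    | succ n ih =>
      set N := (⊤ : Subgroup K).lowerCentralSeries (n + 1 + 1) with hN
      have hnorm : N.Normal := inferInstance
      -- elements of `γ (n+1)` are central modulo `γ (n+2)`
      have hcen : ∀ u ∈ commutator K, ∀ w : K,
          Commute (QuotientGroup.mk' N u) (QuotientGroup.mk' N w) := by
        intro u hu w
        have h1 : ⁅u, w⁆ ∈ N := by
          rw [hN, Subgroup.lowerCentralSeries_succ]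
          exact Subgroup.commutator_mem_commutator (ih hu) (Subgroup.mem_top w)
        have h2 : QuotientGroup.mk' N ⁅u, w⁆ = 1 := (QuotientGroup.eq_one_iff _).2 h1
        rw [map_commutatorElement, commutatorElement_eq_one_iff_mul_comm] at h2
        exact h2
      have hall : ∀ a b : K, Commute (QuotientGroup.mk' N a) (QuotientGroup.mk' N b) := by
        intro a b
        have ha : a ∈ Subgroup.zpowers g ⊔ commutator K := by rw [h]; trivial
        have hb : b ∈ Subgroup.zpowers g ⊔ commutator K := by rw [h]; trivial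
        obtain ⟨x, hx, u, hu, rfl⟩ := Subgroup.mem_sup_of_normal_right.1 ha
        obtain ⟨y, hy, v, hv, rfl⟩ := Subgroup.mem_sup_of_normal_right.1 hb
        obtain ⟨i, rfl⟩ := Subgroup.mem_zpowers_iff.1 hx
        obtain ⟨j, rfl⟩ := Subgroup.mem_zpowers_iff.1 hy
        rw [map_mul, map_mul]
        refine Commute.mul_left (Commute.mul_right ?_ ?_) (Commute.mul_right ?_ ?_)
        · rw [map_zpow, map_zpow]
          exact (Commute.refl _).zpow_zpow i j
        · exact (hcen v hv _).symm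
        · exact hcen u hu _
        · exact hcen u hu _
      rw [commutator_def]
      rw [Subgroup.commutator_le]
      intro a _ b _
      rw [← QuotientGroup.eq_one_iff (N := N)]
      have h2 := hall a b
      have h3 : QuotientGroup.mk' N ⁅a, b⁆ = 1 := by
        rw [map_commutatorElement, commutatorElement_eq_one_iff_mul_comm]
        exact h2
      exact h3
  obtain ⟨n, hn⟩ := (Subgroup.isNilpotent_iff_lowerCentralSeries (⊤ : Subgroup K)).1
    ((Group.isNilpotent_congr (Subgroup.topEquiv (G := K))).2 hK)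
  have h0 : commutator K ≤ ⊥ := by
    refine (key n).trans ?_
    rw [← hn]
    exact Subgroup.lowerCentralSeries_antitone _ (Nat.le_succ n)
  intro a b
  have h1 : ⁅a, b⁆ ∈ commutator K := by
    rw [commutator_def]
    exact Subgroup.commutator_mem_commutator (Subgroup.mem_top a) (Subgroup.mem_top b)
  have h2 := h0 h1
  rw [Subgroup.mem_bot, commutatorElement_eq_one_iff_mul_comm] at h2
  exact h2

/-- version for subgroups -/
theorem comm_of_zpowers_sup' {G : Type} [Group G] (H : Subgroup G) [hK : Group.IsNilpotent H]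
    (g : G) (hg : g ∈ H) (h : Subgroup.zpowers g ⊔ ⁅H, H⁆ = H) :
    ∀ a ∈ H, ∀ b ∈ H, a * b = b * a := by
  have e : Subgroup.zpowers (⟨g, hg⟩ : H) ⊔ commutator H = ⊤ := by
    apply Subgroup.map_injective H.subtype_injective
    rw [Subgroup.map_sup, MonoidHom.map_zpowers, commutator_def, Subgroup.map_commutator,
      ← MonoidHom.range_eq_map, Subgroup.range_subtype]
    exact h
  intro a ha b hb
  have := comm_of_zpowers_sup (⟨g, hg⟩ : H) e ⟨a, ha⟩ ⟨b, hb⟩
  exact congrArg Subtype.val this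

theorem inv_aux (hEX : S_EX) (hTT : S_TT) (hLH : S_LH1) (p N c : ℕ) [Fact p.Prime] (hN : 0 < N)
    (S : Type) [Ring S] [Algebra (ZMod (p ^ N)) S] (J : Submodule (ZMod (p ^ N)) S)
    (f : S → ZMod (p ^ N)) : ∀ n : ℕ, ∀ H : Subgroup Sˣ, Nat.card H = n → Finite H →
    Uni p N c J H →
    (∀ x ∈ LHm p N J H, ∀ y ∈ LHm p N J H, f (x + y) = f x + f y) →
    (∀ x ∈ LHm p N J H, ∀ h ∈ H, f ((h : S) * x * ((h⁻¹ : Sˣ) : S)) = f x) →
    ∀ x ∈ LHm p N J H, ∀ y ∈ LHm p N J H, ∀ z ∈ LHm p N J H,
      ex p N z = ex p N x * ex p N y → f z = f x + f y := by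
  intro n
  induction n using Nat.strong_induction_on with
  | _ n ih =>
  intro H hcard hfin hU hadd hinv
  obtain ⟨l1, l2, l3, l4, l5, l6⟩ := hLH p N c hN S J H hU
  obtain ⟨e1, e2, e3, e4, e5, e6, e7⟩ := hEX p N c S J hU.mul hU.lt hU.nil
  have hJ : ∀ x ∈ LHm p N J H, x ∈ J := fun x hx => ((l1 x).1 hx).1
  have hlog : ∀ h : Sˣ, ∃ x : S, h ∈ H → (x ∈ LHm p N J H ∧ ex p N x = (h : S)) := by
    intro h
    by_cases hh : h ∈ H
    · obtain ⟨x, hx, -⟩ := l4 h hh
      exact ⟨x, fun _ => hx⟩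
    · exact ⟨0, fun h' => absurd h' hh⟩
  choose lam hlam using hlog
  -- uniqueness
  have huniq : ∀ x ∈ LHm p N J H, ∀ h ∈ H, (h : S) = ex p N x → x = lam h := by
    intro x hx h hh he
    exact e3 x (hJ x hx) (lam h) (hJ _ (hlam h hh).1) (by rw [(hlam h hh).2, he])
  by_cases hab : ∀ a ∈ H, ∀ b ∈ H, a * b = b * a
  · intro x hx y hy z hz hxyz
    obtain ⟨-, a, ha, hax⟩ := (l1 x).1 hx
    obtain ⟨-, b, hb, hby⟩ := (l1 y).1 hy
    have hab' : (a : S) * (b : S) = (b : S) * (a : S) := by
      have := congrArg (fun u : Sˣ => (u : S)) (hab a ha b hb)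
      simpa using this
    have c1 : Commute (b : S) x := by
      obtain ⟨x', hx', hx'', hc⟩ := e4 (a : S) (hU.sub a ha)
      have : x' = x := e3 x' hx' x (hJ x hx) (by rw [hx'', hax])
      rw [this] at hc
      exact hc b hab'.symm
    have c2 : Commute x y := by
      obtain ⟨y', hy', hy'', hc⟩ := e4 (b : S) (hU.sub b hb)
      have : y' = y := e3 y' hy' y (hJ y hy) (by rw [hy'', hby])
      rw [this] at hc
      exact hc x c1.symm
    have h1 : ex p N z = ex p N (x + y) := by
      rw [hxyz, e1 x (hJ x hx) y (hJ y hy) c2]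
    have h2 : z = x + y := e3 z (hJ z hz) (x + y) (J.add_mem (hJ x hx) (hJ y hy)) h1
    rw [h2, hadd x hx y hy]
  · -- `N_g`
    have hnil : Group.IsNilpotent H := by
      have hp : IsPGroup p H := by
        intro g
        refine ⟨N, ?_⟩
        have := (e7 (lam g) (hJ _ (hlam g g.2).1) g (hlam g g.2).2.symm).1
        exact Subtype.ext (by simpa using this)
      exact hp.isNilpotent
    have hcomle : ⁅H, H⁆ ≤ H := by
      rw [Subgroup.commutator_le]
      intro a ha b hb
      rw [commutatorElement_def]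
      exact H.mul_mem (H.mul_mem (H.mul_mem ha hb) (H.inv_mem ha)) (H.inv_mem hb)
    have hle : ∀ g ∈ H, Subgroup.zpowers g ⊔ ⁅H, H⁆ ≤ H := by
      intro g hg
      exact sup_le ((Subgroup.zpowers_le).2 hg) hcomle
    -- additivity on `N_g`
    have hphi : ∀ g ∈ H, ∀ h1 ∈ Subgroup.zpowers g ⊔ ⁅H, H⁆,
        ∀ h2 ∈ Subgroup.zpowers g ⊔ ⁅H, H⁆,
        f (lam (h1 * h2)) = f (lam h1) + f (lam h2) := by
      intro g hg h1 hh1 h2 hh2
      set Ng := Subgroup.zpowers g ⊔ ⁅H, H⁆ with hNg
      have hNle : Ng ≤ H := hle g hg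
      have hne : Ng ≠ H := by
        intro he
        exact hab (comm_of_zpowers_sup' H g hg he)
      have hfinN : Finite Ng :=
        Finite.of_injective (Subgroup.inclusion hNle) (Subgroup.inclusion_injective hNle)
      have hlt : Nat.card Ng < n := by
        rw [← hcard]
        have hss : (Ng : Set Sˣ) ⊂ (H : Set Sˣ) := by
          refine ⟨hNle, fun h => hne (le_antisymm hNle h)⟩
        exact Set.Finite.card_lt_card (Set.toFinite (H : Set Sˣ)) hss
      obtain ⟨m1, m2⟩ := l6 Ng hNle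
      have hmem : ∀ h ∈ Ng, lam h ∈ LHm p N J Ng := by
        intro h hh
        obtain ⟨k1, k2⟩ := hlam h (hNle hh)
        exact (m2 _ k1).2 ⟨h, hh, k2.symm⟩
      refine ih (Nat.card Ng) hlt Ng rfl hfinN ⟨hU.mul, hU.lt, hU.nil, fun h hh =>
        hU.sub h (hNle hh)⟩ (fun x hx y hy => hadd x (m1 hx) y (m1 hy))
        (fun x hx h hh => hinv x (m1 hx) h (hNle hh)) _ (hmem _ hh1) _ (hmem _ hh2) _
        (hmem _ (Ng.mul_mem hh1 hh2)) ?_
      rw [(hlam _ (hNle hh1)).2, (hlam _ (hNle hh2)).2,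
        (hlam _ (hNle (Ng.mul_mem hh1 hh2))).2, Units.val_mul]
    have hphi1 : f (lam 1) = 0 := by
      have := hphi 1 H.one_mem 1 (Subgroup.one_mem _) 1 (Subgroup.one_mem _)
      rw [mul_one] at this
      exact left_eq_add.1 this
    have hconj : ∀ g ∈ H, ∀ h ∈ H, f (lam (h * g * h⁻¹)) = f (lam g) := by
      intro g hg h hh
      rw [← hinv (lam g) (hlam g hg).1 h hh]
      congr 1
      symm
      refine huniq _ (l2 _ (hlam g hg).1 h hh) _ (H.mul_mem (H.mul_mem hh hg) (H.inv_mem hh)) ?_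
      rw [e6, (hlam g hg).2]
      simp
    have hcm : ∀ g ∈ H, ∀ h ∈ H, f (lam ⁅g, h⁆) = 0 := by
      intro g hg h hh
      have hg1 : g ∈ Subgroup.zpowers g ⊔ ⁅H, H⁆ :=
        Subgroup.mem_sup_left (Subgroup.mem_zpowers g)
      have hc1 : ⁅g, h⁆ ∈ Subgroup.zpowers g ⊔ ⁅H, H⁆ :=
        Subgroup.mem_sup_right (Subgroup.commutator_mem_commutator hg hh)
      have hg2 : h * g⁻¹ * h⁻¹ ∈ Subgroup.zpowers g ⊔ ⁅H, H⁆ := by
        have : h * g⁻¹ * h⁻¹ = g⁻¹ * ⁅g, h⁆ := by rw [commutatorElement_def]; group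
        rw [this]
        exact Subgroup.mul_mem _ (Subgroup.inv_mem _ hg1) hc1
      have e : ⁅g, h⁆ = g * (h * g⁻¹ * h⁻¹) := by rw [commutatorElement_def]; group
      rw [e, hphi g hg g hg1 _ hg2, hconj _ (H.inv_mem hg) h hh,
        ← hphi g hg g hg1 _ (Subgroup.inv_mem _ hg1), mul_inv_cancel, hphi1]
    have hcom : ∀ d ∈ ⁅H, H⁆, f (lam d) = 0 := by
      have hin : ∀ d ∈ ⁅H, H⁆, d ∈ Subgroup.zpowers (1 : Sˣ) ⊔ ⁅H, H⁆ :=
        fun d hd => Subgroup.mem_sup_right hd
      intro d hd
      rw [Subgroup.commutator_def] at hd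
      induction hd using Subgroup.closure_induction with
      | mem x hx =>
        obtain ⟨g, hg, h, hh, rfl⟩ := hx
        exact hcm g hg h hh
      | one => exact hphi1
      | mul x y hx hy hx' hy' =>
        rw [← Subgroup.commutator_def] at hx hy
        rw [hphi 1 H.one_mem x (hin x hx) y (hin y hy), hx', hy', add_zero]
      | inv x hx hx' =>
        rw [← Subgroup.commutator_def] at hx
        have := hphi 1 H.one_mem x (hin x hx) x⁻¹ (hin _ (Subgroup.inv_mem _ hx))
        rw [mul_inv_cancel, hphi1, hx', zero_add] at this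
        exact this.symm
    intro x hx y hy z hz hxyz
    obtain ⟨-, a, ha, hax⟩ := (l1 x).1 hx
    obtain ⟨-, b, hb, hby⟩ := (l1 y).1 hy
    obtain ⟨d, hd, hd'⟩ := hTT p N c hN S J H hU x (hJ x hx) y (hJ y hy) a ha b hb hax hby
    have hdH : d ∈ H := hcomle hd
    have habH : a * b ∈ H := H.mul_mem ha hb
    have hgH : a * b * d ∈ H := H.mul_mem habH hdH
    have h1 : x + y = lam (a * b * d) :=
      huniq _ (Submodule.add_mem _ hx hy) _ hgH hd'
    have h2 : z = lam (a * b) := huniq _ hz _ habH (by rw [hxyz, Units.val_mul, hax, hby])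
    have h3 := hphi (a * b * d) hgH (a * b * d) (Subgroup.mem_sup_left (Subgroup.mem_zpowers _))
      d⁻¹ (Subgroup.mem_sup_right (Subgroup.inv_mem _ hd))
    rw [mul_inv_cancel_right, hcom _ (Subgroup.inv_mem _ hd), add_zero] at h3
    rw [h2, h3, ← h1, hadd x hx y hy]

theorem t_INV (hEX : S_EX) (hTT : S_TT) (hLH : S_LH1) : S_INV := by
  intro p N c _ hN S _ _ J H hfin hU f hadd hinv
  exact inv_aux hEX hTT hLH p N c hN S J f (Nat.card H) H rfl hfin hU hadd hinv

end H41.NE
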