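import Pool.Agent.H6.NE.Stm1

/-!
# NE, part MS (mixing step), MP_895f30.
-/

set_option autoImplicit false

open Finset

namespace H41.NE

open H6.NE

variable {p N : ℕ}

/-- length of `Z` against kernel and image bound -/
theorem step [Fact p.Prime] (hL : S_LEN) {M M' : Type} [AddCommGroup M] [Module (ZMod (p ^ N)) M]
    [AddCommGroup M'] [Module (ZMod (p ^ N)) M'] (f : M →ₗ[ZMod (p ^ N)] M')
    (Z Z' : Submodule (ZMod (p ^ N)) M) (D : Submodule (ZMod (p ^ N)) M')
    (hZ : Finite Z) (hZ' : Finite Z') (hD : Finite D)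
    (h1 : ∀ y ∈ Z, f y = 0 → y ∈ Z') (h2 : ∀ y ∈ Z, f y ∈ D) :
    ln p Z ≤ ln p Z' + ln p D := by
  obtain ⟨L1, -, -, -, -, L6, -, -⟩ := hL p N
  have e1 := L1 Z M' (f.domRestrict Z)
  rw [e1]
  have k1 : ln p (LinearMap.ker (f.domRestrict Z)) ≤ ln p Z' := by
    let g : LinearMap.ker (f.domRestrict Z) →ₗ[ZMod (p ^ N)] Z' :=
      { toFun := fun y => ⟨y.1.1, h1 _ y.1.2 (by
          have := y.2
          rw [LinearMap.mem_ker] at this
          exact this)⟩
        map_add' := fun _ _ => rfl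
        map_smul' := fun _ _ => rfl }
    exact L6 _ _ g (by
      intro a c hac
      have := congrArg Subtype.val hac
      exact Subtype.ext (Subtype.ext this))
  have k2 : ln p (LinearMap.range (f.domRestrict Z)) ≤ ln p D := by
    have hfin : Finite (LinearMap.range (f.domRestrict Z)) :=
      Set.Finite.to_subtype (Set.finite_range _)
    let g : LinearMap.range (f.domRestrict Z) →ₗ[ZMod (p ^ N)] D :=
      { toFun := fun y => ⟨y.1, by
          obtain ⟨z, hz⟩ := y.2
          rw [← hz]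
          exact h2 _ z.2⟩
        map_add' := fun _ _ => rfl
        map_smul' := fun _ _ => rfl }
    exact L6 _ _ g (by
      intro a c hac
      have := congrArg Subtype.val hac
      exact Subtype.ext this)
  omega

section
variable {k V k' V' : Type} [AddCommGroup k] [Module (ZMod (p ^ N)) k]
  [AddCommGroup V] [Module (ZMod (p ^ N)) V]
  [AddCommGroup k'] [Module (ZMod (p ^ N)) k'] [AddCommGroup V']
  [Module (ZMod (p ^ N)) V']

/-- values `y v` for the `y` whose restriction kills `π v` -/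
noncomputable def Dv (b : k →ₗ[ZMod (p ^ N)] V →ₗ[ZMod (p ^ N)] V)
    (b' : k' →ₗ[ZMod (p ^ N)] V' →ₗ[ZMod (p ^ N)] V') (π : V' →ₗ[ZMod (p ^ N)] V)
    (res : k' →ₗ[ZMod (p ^ N)] k) (v : V') : Submodule (ZMod (p ^ N)) V' :=
  ((Sv b (π v)).comap res).map (b'.flip v)

theorem ln_Dv [Fact p.Prime] (hL : S_LEN) [Finite k] [Finite k'] [Finite V']
    (b : k →ₗ[ZMod (p ^ N)] V →ₗ[ZMod (p ^ N)] V)
    (b' : k' →ₗ[ZMod (p ^ N)] V' →ₗ[ZMod (p ^ N)] V') (π : V' →ₗ[ZMod (p ^ N)] V)
    (res : k' →ₗ[ZMod (p ^ N)] k) (hc : ∀ y v, π (b' y v) = b (res y) (π v)) (v : V') :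
    ln p (Dv b b' π res v) + ln p (Sv b' v) ≤ ln p (LinearMap.ker res) + ln p (Sv b (π v)) := by
  have s1 : ln p ((Sv b (π v)).comap res) ≤ ln p (LinearMap.ker res) + ln p (Sv b (π v)) := by
    refine step hL res ((Sv b (π v)).comap res) (LinearMap.ker res) (Sv b (π v))
      inferInstance inferInstance inferInstance ?_ ?_
    · intro y _ hy
      exact hy
    · intro y hy
      exact hy
  obtain ⟨L1, -, -, -, -, L6, -, -⟩ := hL p N
  have e1 := L1 ((Sv b (π v)).comap res) V' ((b'.flip v).domRestrict _)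
  have e2 : LinearMap.range ((b'.flip v).domRestrict ((Sv b (π v)).comap res)) =
      Dv b b' π res v := by
    rw [LinearMap.range_domRestrict]
    rfl
  rw [e2] at e1
  have k1 : ln p (Sv b' v) ≤
      ln p (LinearMap.ker ((b'.flip v).domRestrict ((Sv b (π v)).comap res))) := by
    let g : Sv b' v →ₗ[ZMod (p ^ N)]
        LinearMap.ker ((b'.flip v).domRestrict ((Sv b (π v)).comap res)) :=
      { toFun := fun y => ⟨⟨y.1, by
          have h := (mem_Sv b' v y.1).1 y.2
          rw [Submodule.mem_comap, mem_Sv, ← hc, h, map_zero]⟩, by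
          rw [LinearMap.mem_ker]
          exact (mem_Sv b' v y.1).1 y.2⟩
        map_add' := fun _ _ => rfl
        map_smul' := fun _ _ => rfl }
    exact L6 _ _ g (by
      intro a c hac
      have := congrArg Subtype.val (congrArg Subtype.val hac)
      exact Subtype.ext this)
  omega

/-- coefficients of `y(t) (x + t u)` -/
noncomputable def cf (b' : k' →ₗ[ZMod (p ^ N)] V' →ₗ[ZMod (p ^ N)] V') (x u : V') :
    ℕ → ((ℕ → k') →ₗ[ZMod (p ^ N)] V')
  | 0 => (b'.flip x).comp (LinearMap.proj 0)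
  | j + 1 => (b'.flip x).comp (LinearMap.proj (j + 1)) + (b'.flip u).comp (LinearMap.proj j)

theorem cf_zero (b' : k' →ₗ[ZMod (p ^ N)] V' →ₗ[ZMod (p ^ N)] V') (x u : V') (y : ℕ → k') :
    cf b' x u 0 y = b' (y 0) x := rfl

theorem cf_succ (b' : k' →ₗ[ZMod (p ^ N)] V' →ₗ[ZMod (p ^ N)] V') (x u : V') (y : ℕ → k')
    (j : ℕ) : cf b' x u (j + 1) y = b' (y (j + 1)) x + b' (y j) u := rfl

theorem cf_eval (b' : k' →ₗ[ZMod (p ^ N)] V' →ₗ[ZMod (p ^ N)] V') (x u : V') (y : ℕ → k')
    (n : ℕ) (hy : ∀ j, n ≤ j → y j = 0) (s : ZMod (p ^ N)) :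
    ∑ i ∈ Finset.range (n + 1), s ^ i • cf b' x u i y =
      b' (∑ i ∈ Finset.range n, s ^ i • y i) (x + s • u) := by
  have h1 : ∀ m : ℕ, ∑ i ∈ Finset.range (m + 1), s ^ i • cf b' x u i y =
      b' (∑ i ∈ Finset.range (m + 1), s ^ i • y i) x +
      b' (∑ i ∈ Finset.range m, s ^ i • y i) (s • u) := by
    intro m
    induction m with
    | zero => simp [cf_zero]
    | succ m ih =>
      rw [Finset.sum_range_succ, ih, cf_succ, Finset.sum_range_succ _ (m + 1),
        Finset.sum_range_succ _ m]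
      simp only [map_add, LinearMap.add_apply, map_smul, LinearMap.smul_apply, smul_add, smul_smul]
      rw [pow_succ' s m, mul_comm s (s ^ m)]
      abel
  rw [h1, Finset.sum_range_succ _ n, hy n le_rfl, smul_zero, add_zero, map_add]

/-- the module of MSL -/
noncomputable def QQ (b : k →ₗ[ZMod (p ^ N)] V →ₗ[ZMod (p ^ N)] V)
    (res : k' →ₗ[ZMod (p ^ N)] k) (X U : V) (n : ℕ) : Submodule (ZMod (p ^ N)) (ℕ → k') where
  carrier := {y | (∀ j, n ≤ j → y j = 0) ∧ (fun j => res (y j)) ∈ KP b X U n}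
  add_mem' := by
    rintro y z ⟨h1, h2⟩ ⟨k1, k2⟩
    refine ⟨fun j hj => by simp [h1 j hj, k1 j hj], ?_⟩
    have := (KP b X U n).add_mem h2 k2
    convert this using 1
    funext j
    simp
  zero_mem' := by
    refine ⟨fun _ _ => rfl, ?_⟩
    have : (fun j : ℕ => res ((0 : ℕ → k') j)) = 0 := by funext j; simp
    rw [this]
    exact (KP b X U n).zero_mem
  smul_mem' := by
    rintro c y ⟨h1, h2⟩
    refine ⟨fun j hj => by simp [h1 j hj], ?_⟩
    have := (KP b X U n).smul_mem c h2
    convert this using 1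
    funext j
    simp

/-- the filtration -/
noncomputable def ZZ (b : k →ₗ[ZMod (p ^ N)] V →ₗ[ZMod (p ^ N)] V)
    (b' : k' →ₗ[ZMod (p ^ N)] V' →ₗ[ZMod (p ^ N)] V')
    (res : k' →ₗ[ZMod (p ^ N)] k) (X U : V) (x u : V') (n : ℕ) (B : Finset (ZMod (p ^ N)))
    (j : ℕ) : Submodule (ZMod (p ^ N)) (ℕ → k') where
  carrier := {y | y ∈ QQ b res X U n ∧
    (∀ s ∈ B, ∑ i ∈ Finset.range (n + 1), s ^ i • cf b' x u i y = 0) ∧
    ∀ i, j ≤ i → cf b' x u i y = 0}
  add_mem' := by
    rintro y z ⟨h1, h2, h3⟩ ⟨k1, k2, k3⟩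
    refine ⟨Submodule.add_mem _ h1 k1, fun s hs => ?_, fun i hi => ?_⟩
    · simp only [map_add, smul_add]
      rw [Finset.sum_add_distrib, h2 s hs, k2 s hs, add_zero]
    · rw [map_add, h3 i hi, k3 i hi, add_zero]
  zero_mem' := by
    refine ⟨Submodule.zero_mem _, fun s hs => ?_, fun i hi => ?_⟩
    · simp
    · simp
  smul_mem' := by
    rintro c y ⟨h1, h2, h3⟩
    refine ⟨Submodule.smul_mem _ c h1, fun s hs => ?_, fun i hi => ?_⟩
    · have : ∑ i ∈ Finset.range (n + 1), s ^ i • cf b' x u i (c • y) =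
        c • ∑ i ∈ Finset.range (n + 1), s ^ i • cf b' x u i y := by
        rw [Finset.smul_sum]
        refine Finset.sum_congr rfl fun i _ => ?_
        rw [map_smul, smul_comm]
      rw [this, h2 s hs, smul_zero]
    · rw [map_smul, h3 i hi, smul_zero]

theorem mem_QQ (b : k →ₗ[ZMod (p ^ N)] V →ₗ[ZMod (p ^ N)] V)
    (res : k' →ₗ[ZMod (p ^ N)] k) (X U : V) (n : ℕ) (y : ℕ → k') :
    y ∈ QQ b res X U n ↔ (∀ j, n ≤ j → y j = 0) ∧ (fun j => res (y j)) ∈ KP b X U n := Iff.rfl

theorem mem_KP {k V W : Type} [AddCommGroup k] [Module (ZMod (p ^ N)) k] [AddCommGroup V]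
    [Module (ZMod (p ^ N)) V] [AddCommGroup W] [Module (ZMod (p ^ N)) W]
    (b : k →ₗ[ZMod (p ^ N)] V →ₗ[ZMod (p ^ N)] W) (x u : V) (n : ℕ) (y : ℕ → k) :
    y ∈ KP b x u n ↔ (∀ j, n ≤ j → y j = 0) ∧ b (y 0) x = 0 ∧
      ∀ j, b (y (j + 1)) x + b (y j) u = 0 := Iff.rfl

theorem mem_ZZ (b : k →ₗ[ZMod (p ^ N)] V →ₗ[ZMod (p ^ N)] V)
    (b' : k' →ₗ[ZMod (p ^ N)] V' →ₗ[ZMod (p ^ N)] V')
    (res : k' →ₗ[ZMod (p ^ N)] k) (X U : V) (x u : V') (n : ℕ) (B : Finset (ZMod (p ^ N)))
    (j : ℕ) (y : ℕ → k') : y ∈ ZZ b b' res X U x u n B j ↔ y ∈ QQ b res X U n ∧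
    (∀ s ∈ B, ∑ i ∈ Finset.range (n + 1), s ^ i • cf b' x u i y = 0) ∧
    ∀ i, j ≤ i → cf b' x u i y = 0 := Iff.rfl

theorem pi_cf (b : k →ₗ[ZMod (p ^ N)] V →ₗ[ZMod (p ^ N)] V)
    (b' : k' →ₗ[ZMod (p ^ N)] V' →ₗ[ZMod (p ^ N)] V') (π : V' →ₗ[ZMod (p ^ N)] V)
    (res : k' →ₗ[ZMod (p ^ N)] k) (hc : ∀ y v, π (b' y v) = b (res y) (π v)) (x u : V') (n : ℕ)
    (y : ℕ → k') (hy : y ∈ QQ b res (π x) (π u) n) (i : ℕ) : π (cf b' x u i y) = 0 := by
  obtain ⟨-, -, h0, h1⟩ := hy
  cases i with
  | zero => rw [cf_zero, hc]; exact h0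
  | succ i => rw [cf_succ, map_add, hc, hc]; exact h1 i

/-- the leading coefficient lies in `Dv u` -/
theorem lead [Fact p.Prime] (hDEF : S_DEF) [Finite k']
    (b : k →ₗ[ZMod (p ^ N)] V →ₗ[ZMod (p ^ N)] V)
    (b' : k' →ₗ[ZMod (p ^ N)] V' →ₗ[ZMod (p ^ N)] V') (π : V' →ₗ[ZMod (p ^ N)] V)
    (res : k' →ₗ[ZMod (p ^ N)] k) (hc : ∀ y v, π (b' y v) = b (res y) (π v)) (x u : V') (n : ℕ)
    (T : Finset (ZMod (p ^ N))) (hT : Nd T)
    (hT1 : ∀ s ∈ T, ln p (Sv b' u) ≤ ln p (Sv b' (x + s • u)))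
    (hT2 : n + ln p k' + 1 ≤ T.card + ln p (Sv b' u))
    (y : ℕ → k') (hy : y ∈ QQ b res (π x) (π u) n) (j : ℕ)
    (hj : ∀ i, j + 1 ≤ i → cf b' x u i y = 0) : cf b' x u j y ∈ Dv b b' π res u := by
  have hπ := pi_cf b b' π res hc x u n y hy j
  have key : ∃ m : k', b' m u = cf b' x u j y := by
    rcases Nat.lt_or_ge j n with hjn | hjn
    · -- `j < n`
      have hex : ∃ m' : k', b' (y j) x + b' m' u = 0 := by
        have := hDEF p N k' V' V' b' x u T hT hT1 (n - 1 - j) (fun i => y (n - 1 - i))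
          (by omega) (by
            have h := hj n (by omega)
            obtain ⟨n', rfl⟩ : ∃ n', n = n' + 1 := ⟨n - 1, by omega⟩
            rw [cf_succ, hy.1 (n' + 1) le_rfl] at h
            simpa using h) (by
            intro i hi
            have h := hj (n - 1 - i) (by omega)
            obtain ⟨q, hq⟩ : ∃ q, n - 1 - i = q + 1 := ⟨n - 1 - i - 1, by omega⟩
            have hq' : n - 1 - (i + 1) = q := by omega
            rw [hq, cf_succ] at h
            simp only [hq, hq']
            exact h)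
        have e : n - 1 - (n - 1 - j) = j := by omega
        simpa only [e] using this
      obtain ⟨m', hm'⟩ := hex
      cases j with
      | zero =>
        refine ⟨-m', ?_⟩
        rw [cf_zero, map_neg, LinearMap.neg_apply]
        exact (eq_neg_of_add_eq_zero_left hm').symm
      | succ j =>
        refine ⟨y j - m', ?_⟩
        rw [cf_succ, map_sub, LinearMap.sub_apply, eq_neg_of_add_eq_zero_left hm']
        abel
    · -- `n ≤ j`
      cases j with
      | zero =>
        refine ⟨0, ?_⟩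
        rw [cf_zero, hy.1 0 hjn]
        simp
      | succ j =>
        refine ⟨y j, ?_⟩
        rw [cf_succ, hy.1 (j + 1) hjn]
        simp
  obtain ⟨m, hm⟩ := key
  refine Submodule.mem_map.2 ⟨m, ?_, ?_⟩
  · rw [Submodule.mem_comap, mem_Sv, ← hc, hm, hπ]
  · exact hm

end

theorem t_MS (hL : S_LEN) (hV : S_VDM) (hDEF : S_DEF) (hMSL : S_MSL) : S_MS := by
  intro p N _ k V k' V' _ _ _ _ _ _ _ _ _ _ _ b b' π res hc x u n T0 B T hT0 hT0n hT0r hUr hB hBn
    hBs hT hT1 hT2
  obtain ⟨L1, -, -, -, -, L6, -, -⟩ := hL p N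
  obtain ⟨hQf, hQl⟩ := hMSL p N k V V k' b res (π x) (π u) n T0 hT0 hT0n (by
    intro s hs
    have := hT0r s hs
    rwa [map_add, map_smul] at this) (QQ b res (π x) (π u) n) (fun y => Iff.rfl)
  have fin : ∀ (B' : Finset (ZMod (p ^ N))) (j : ℕ),
      Finite (ZZ b b' res (π x) (π u) x u n B' j) := by
    intro B' j
    have hle : ZZ b b' res (π x) (π u) x u n B' j ≤ QQ b res (π x) (π u) n := fun y hy => hy.1
    exact Finite.of_injective (Submodule.inclusion hle) (Submodule.inclusion_injective hle)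
  have top : ZZ b b' res (π x) (π u) x u n ∅ (n + 1) = QQ b res (π x) (π u) n := by
    apply le_antisymm
    · intro y hy
      exact hy.1
    · intro y hy
      refine ⟨hy, fun s hs => absurd hs (Finset.notMem_empty s), fun i hi => ?_⟩
      obtain ⟨i', rfl⟩ : ∃ i', i = i' + 1 := ⟨i - 1, by omega⟩
      rw [cf_succ, hy.1 (i' + 1) (by omega), hy.1 i' (by omega)]
      simp
  -- evaluation steps
  have ev : ∀ B' : Finset (ZMod (p ^ N)), B' ⊆ B →
      ln p (QQ b res (π x) (π u) n) + B'.card * (ln p (Sv b' u) + 1) ≤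
        ln p (ZZ b b' res (π x) (π u) x u n B' (n + 1)) +
          B'.card * (ln p (Sv b (π u)) + ln p (LinearMap.ker res)) := by
    intro B'
    induction B' using Finset.induction_on with
    | empty =>
      intro _
      rw [top]
      simp
    | insert s B' hs ih =>
      intro hsub
      have ih' := ih (fun a ha => hsub (Finset.mem_insert_of_mem ha))
      obtain ⟨-, hs2, hs3⟩ := hBs s (hsub (Finset.mem_insert_self s B'))
      have hD := ln_Dv hL b b' π res hc (x + s • u)
      have hst := step hL (∑ i ∈ Finset.range (n + 1), s ^ i • cf b' x u i)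
        (ZZ b b' res (π x) (π u) x u n B' (n + 1))
        (ZZ b b' res (π x) (π u) x u n (insert s B') (n + 1))
        (Dv b b' π res (x + s • u)) (fin _ _) (fin _ _) inferInstance (by
          intro y hy h0
          refine ⟨hy.1, ?_, hy.2.2⟩
          intro s' hs'
          rcases Finset.mem_insert.1 hs' with rfl | h
          · simpa [LinearMap.sum_apply] using h0
          · exact hy.2.1 s' h) (by
          intro y hy
          have e : (∑ i ∈ Finset.range (n + 1), s ^ i • cf b' x u i) y =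
              ∑ i ∈ Finset.range (n + 1), s ^ i • cf b' x u i y := by
            simp [LinearMap.sum_apply]
          rw [e]
          have e2 := cf_eval b' x u y n hy.1.1 s
          refine Submodule.mem_map.2 ⟨∑ i ∈ Finset.range n, s ^ i • y i, ?_, e2.symm⟩
          rw [Submodule.mem_comap, mem_Sv, ← hc, ← e2, map_sum]
          refine Finset.sum_eq_zero fun i _ => ?_
          rw [map_smul, pi_cf b b' π res hc x u n y hy.1 i, smul_zero])
      rw [Finset.card_insert_of_notMem hs, Nat.add_mul, Nat.add_mul]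
      rw [hs2] at hD
      omega
  -- degree steps
  have hDu := ln_Dv hL b b' π res hc u
  have deg : ∀ i : ℕ, ln p (ZZ b b' res (π x) (π u) x u n B (B.card + i)) +
      i * ln p (Sv b' u) ≤ ln p (ZZ b b' res (π x) (π u) x u n B B.card) +
        i * (ln p (Sv b (π u)) + ln p (LinearMap.ker res)) := by
    intro i
    induction i with
    | zero => simp
    | succ i ih =>
      have hst := step hL (cf b' x u (B.card + i))
        (ZZ b b' res (π x) (π u) x u n B (B.card + (i + 1)))
        (ZZ b b' res (π x) (π u) x u n B (B.card + i))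
        (Dv b b' π res u) (fin _ _) (fin _ _) inferInstance (by
          intro y hy h0
          refine ⟨hy.1, hy.2.1, ?_⟩
          intro i' hi'
          rcases Nat.eq_or_lt_of_le hi' with h | h
          · rw [← h]; exact h0
          · exact hy.2.2 i' (by omega)) (by
          intro y hy
          exact lead hDEF b b' π res hc x u n T hT hT1 hT2 y hy.1 (B.card + i)
            (fun i' hi' => hy.2.2 i' (by omega)))
      rw [Nat.add_mul, Nat.add_mul, one_mul, one_mul]
      omega
  -- bottom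
  have bot : ZZ b b' res (π x) (π u) x u n B B.card ≤ KP b' x u n := by
    intro y hy
    have hz : ∀ i, cf b' x u i y = 0 := by
      intro i
      rcases Nat.lt_or_ge i B.card with h | h
      · have := hV p N V' ⊥ B.card (fun i => cf b' x u i y) B hB le_rfl (by
          intro s hs
          rw [Submodule.mem_bot]
          have h1 := hy.2.1 s hs
          rw [← Finset.sum_subset (Finset.range_subset_range.2 hBn)] at h1
          · exact h1
          · intro i' _ hi'
            rw [hy.2.2 i' (by simpa using hi'), smul_zero]) i h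
        simpa using this
      · exact hy.2.2 i h
    refine ⟨hy.1.1, hz 0, fun j => hz (j + 1)⟩
  have finKP : Finite (KP b' x u n) := by
    have : Function.Injective (fun (y : KP b' x u n) (i : Fin n) => y.1 i.1) := by
      intro a c hac
      apply Subtype.ext
      funext j
      rcases Nat.lt_or_ge j n with h | h
      · exact congrFun hac ⟨j, h⟩
      · rw [a.2.1 j h, c.2.1 j h]
    exact Finite.of_injective _ this
  have hbot : ln p (ZZ b b' res (π x) (π u) x u n B B.card) ≤ ln p (KP b' x u n) := by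
    have := fin B B.card
    exact L6 _ _ (Submodule.inclusion bot) (Submodule.inclusion_injective bot)
  have h1 := ev B (Finset.Subset.refl B)
  have h2 := deg (n + 1 - B.card)
  have h3 : B.card + (n + 1 - B.card) = n + 1 := by omega
  rw [h3] at h2
  rw [hQl] at h1
  obtain ⟨r, hr⟩ : ∃ r, n + 1 = B.card + r := ⟨n + 1 - B.card, by omega⟩
  have hr' : n + 1 - B.card = r := by omega
  rw [hr'] at h2
  rw [hr]
  have hn : (n : ℤ) = B.card + r - 1 := by omega
  zify at h1 h2 hbot ⊢
  rw [hn] at h1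
  nlinarith [h1, h2, hbot]

end H41.NE
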